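import Mathlib
import Pool.Agent.H874Z.CA.Defs

set_option autoImplicit false

namespace Pool.Agent.H211Z.CA

open Set Filter Topology TopologicalSpace MeasureTheory Pool.Agent.H244Z.CB Pool.Agent.H874Z.CA

theorem negl_empty {X : Type} [MeasurableSpace X] (E : X → X → Prop) : Negl E ∅ :=
  ⟨MeasurableSet.empty, fun _ _ _ h => h, fun _ => id, fun _ => measurable_id,
    fun _ _ h => h.elim, fun _ _ _ h => h.elim⟩

theorem negl_iUnion {X : Type} [MeasurableSpace X] {E : X → X → Prop} (hE : Equivalence E)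
    (J : ℕ → Set X) (hJ : ∀ n, Negl E (J n)) : Negl E (⋃ n, J n) := by
  classical
  choose hm hi β hβ hβJ hβi using hJ
  obtain ⟨c, hc, hcJ⟩ := meas_least (fun n x => x ∈ J n ∧ ∀ m < n, x ∉ J m) fun n => by
    refine (hm n).inter ?_
    show MeasurableSet {x | ∀ m < n, x ∉ J m}
    simp only [Set.setOf_forall]
    exact MeasurableSet.iInter fun m => MeasurableSet.iInter fun _ => (hm m).compl
  have hcx : ∀ x ∈ ⋃ n, J n, x ∈ J (c x) ∧ ∀ m < c x, x ∉ J m := by
    intro x hx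
    have hex : ∃ n, x ∈ J n := mem_iUnion.1 hx
    exact hcJ x ⟨Nat.find hex, Nat.find_spec hex, fun m hm => Nat.find_min hex hm⟩
  have hcE : ∀ x ∈ ⋃ n, J n, ∀ y ∈ ⋃ n, J n, E x y → c x = c y := by
    intro x hx y hy hxy
    refine le_antisymm (not_lt.1 fun h => ?_) (not_lt.1 fun h => ?_)
    · exact (hcx x hx).2 _ h (hi _ _ _ (hE.symm hxy) (hcx y hy).1)
    · exact (hcx y hy).2 _ h (hi _ _ _ hxy (hcx x hx).1)
  refine ⟨MeasurableSet.iUnion hm, fun x y h hx => ?_, fun k x => β (c x) k x,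
    fun k => meas_index (F := fun n x => β n k x) hc fun n => hβ n k, fun k x hx => ?_,
    fun k k' x hx x' hx' h => ?_⟩
  · obtain ⟨n, hn⟩ := mem_iUnion.1 hx
    exact mem_iUnion.2 ⟨n, hi n x y h hn⟩
  · exact ⟨mem_iUnion.2 ⟨_, (hβJ _ k x (hcx x hx).1).1⟩, (hβJ _ k x (hcx x hx).1).2⟩
  · have h1 := (hβJ _ k x (hcx x hx).1).2
    have h2 := (hβJ _ k' x' (hcx x' hx').1).2
    have h3 : β (c x) k x = β (c x') k' x' := h
    rw [h3] at h1
    have h4 := hcE x hx x' hx' (hE.trans h1 (hE.symm h2))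
    have h5 := (hcx x' hx').1
    rw [← h4] at h3 h5
    exact hβi _ _ _ _ (hcx x hx).1 _ h5 h3

theorem negl_mono {X : Type} [MeasurableSpace X] {E : X → X → Prop} {J I : Set X}
    (hJ : Negl E J) (hIJ : I ⊆ J) (hI : MeasurableSet I) (hi : ∀ x y, E x y → x ∈ I → y ∈ I) :
    Negl E I := by
  obtain ⟨-, -, β, hβ, hβJ, hβi⟩ := hJ
  exact ⟨hI, hi, β, hβ, fun k x hx => ⟨hi _ _ (hβJ k x (hIJ hx)).2 hx, (hβJ k x (hIJ hx)).2⟩,
    fun k k' x hx x' hx' h => hβi k k' x (hIJ hx) x' (hIJ hx') h⟩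

theorem negl_union {X : Type} [MeasurableSpace X] {E : X → X → Prop} (hE : Equivalence E)
    {J I : Set X} (hJ : Negl E J) (hI : Negl E I) : Negl E (J ∪ I) := by
  have := negl_iUnion hE (fun n => if n = 0 then J else I) fun n => by
    split_ifs
    · exact hJ
    · exact hI
  convert this using 1
  ext x
  simp only [mem_union, mem_iUnion]
  constructor
  · rintro (h | h)
    · exact ⟨0, by simpa using h⟩
    · exact ⟨1, by simpa using h⟩
  · rintro ⟨n, hn⟩
    split_ifs at hn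
    · exact Or.inl hn
    · exact Or.inr hn

theorem negl_max {X : Type} [MeasurableSpace X] {E : X → X → Prop} (hE : Equivalence E)
    (μ : Measure X) [IsFiniteMeasure μ] : ∃ Xc, Negl E Xc ∧ ∀ J, Negl E J → μ (J \ Xc) = 0 := by
  obtain ⟨u, -, hu, huS⟩ := exists_seq_tendsto_sSup (S := μ '' {J | Negl E J})
    ⟨_, ∅, negl_empty E, rfl⟩ (OrderTop.bddAbove _)
  choose J hJ hJu using huS
  have hX := negl_iUnion hE J hJ
  refine ⟨⋃ n, J n, hX, fun I hI => ?_⟩
  have h1 : sSup (μ '' {J | Negl E J}) ≤ μ (⋃ n, J n) :=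
    le_of_tendsto' hu fun n => (hJu n) ▸ measure_mono (subset_iUnion J n)
  have h2 : μ (I ∪ ⋃ n, J n) ≤ sSup (μ '' {J | Negl E J}) :=
    le_sSup ⟨_, negl_union hE hI hX, rfl⟩
  have h3 : μ (I \ ⋃ n, J n) + μ (⋃ n, J n) = μ (I ∪ ⋃ n, J n) := by
    rw [← measure_union disjoint_sdiff_left hX.1, diff_union_self]
  have h4 : μ (I \ ⋃ n, J n) + μ (⋃ n, J n) ≤ 0 + μ (⋃ n, J n) := by
    rw [h3, zero_add]
    exact h2.trans h1
  exact nonpos_iff_eq_zero.1 ((ENNReal.add_le_add_iff_right (measure_ne_top μ _)).1 h4)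

theorem neglStmt : NeglStmt := fun _ _ _ _ hE =>
  ⟨negl_iUnion hE.equiv, fun _ _ => negl_mono, fun μ _ => negl_max hE.equiv μ⟩

/-- the saturation of a Borel set meeting every class in at most one point is negligible -/
theorem negl_of_transversal {X : Type} [MeasurableSpace X] [StandardBorelSpace X]
    {E : X → X → Prop} (hE : IsAperiodicCBER E) {S : Set X} (hSm : MeasurableSet S)
    (hSu : ∀ x ∈ S, ∀ y ∈ S, E x y → x = y) : Negl E {x | ∃ y ∈ S, E x y} := by
  obtain ⟨g, hg, hgi, -, hgE⟩ := exists_invol hE.equiv hE.borel hE.countable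
  have hEq : E = fun x y => ∃ n, g n x = y := by
    funext x y
    exact propext (hgE x y)
  obtain ⟨κ, hκm, hκ⟩ := Pool.Agent.Helper281.Bo.exists_class_surjective g hg (hEq ▸ hE.equiv)
  have hinf : ∀ x, {y | ∃ n, g n x = y}.Infinite := by
    intro x
    have := hE.infinite x
    rwa [hEq] at this
  choose d hd hdκ using fun k => meas_least (fun i x => κ (g i x) = k)
    fun i => measurableSet_eq_fun (hκm.comp (hg i)) measurable_const
  have hW := compr_sat hE.equiv hg hgi hgE hSm (fun k x => g (d k x) x)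
    (fun k => meas_index (hd k) hg) (fun k x _ => (hgE _ _).2 ⟨_, rfl⟩)
    (fun k k' x hx x' hx' h => by
      refine ⟨?_, hSu x hx x' hx' ?_⟩
      · rw [← hdκ k x (hκ x (hinf x) k), ← hdκ k' x' (hκ x' (hinf x') k')]
        exact congrArg κ h
      · have h1 : E x (g (d k x) x) := (hgE _ _).2 ⟨_, rfl⟩
        have h2 : E x' (g (d k' x') x') := (hgE _ _).2 ⟨_, rfl⟩
        have h3 : g (d k x) x = g (d k' x') x' := h
        rw [h3] at h1
        exact hE.equiv.trans h1 (hE.equiv.symm h2))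
  have he : {x | ∃ y ∈ S, E x y} = {x | ∃ i, g i x ∈ S} := by
    ext x
    constructor
    · rintro ⟨y, hy, hxy⟩
      obtain ⟨i, rfl⟩ := (hgE _ _).1 hxy
      exact ⟨i, hy⟩
    · rintro ⟨i, hi⟩
      exact ⟨_, hi, (hgE _ _).2 ⟨i, rfl⟩⟩
  rw [he]
  exact ⟨sat_meas hg hSm, fun x y h hx => sat_inv hE.equiv hgE h hx, hW⟩

theorem class_eq {X : Type} {E : X → X → Prop} (hE : Equivalence E) (U : Set X) {x y : X}
    (h : E x y) : {z | z ∈ U ∧ E x z} = {z | z ∈ U ∧ E y z} := by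
  ext z
  exact ⟨fun hz => ⟨hz.1, hE.trans (hE.symm h) hz.2⟩, fun hz => ⟨hz.1, hE.trans h hz.2⟩⟩

theorem inf_meas {X : Type} [MeasurableSpace X] [StandardBorelSpace X]
    {E : X → X → Prop} (hE : IsAperiodicCBER E) {U : Set X} (hU : MeasurableSet U) :
    MeasurableSet {x | {z | z ∈ U ∧ E x z}.Infinite} := by
  classical
  obtain ⟨g, hg, -, -, hgE⟩ := exists_invol hE.equiv hE.borel hE.countable
  have := Pool.Agent.Helper281.Bo.measurableSet_infAt hg
    (c := fun z => if z ∈ U then 1 else 0)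
    (Measurable.ite hU measurable_const measurable_const) 1
  convert this using 3 with x
  unfold Pool.Agent.Helper281.Bo.InfAt
  have e : {z | z ∈ U ∧ E x z} = {y | (∃ n, g n x = y) ∧ (if y ∈ U then 1 else 0 : ℕ) = 1} := by
    ext z
    simp only [mem_setOf_eq, hgE]
    by_cases hz : z ∈ U <;> simp [hz]
  rw [e]

/-- the classes meeting `U` in a finite nonempty set form a negligible set -/
theorem negl_finite {X : Type} [MeasurableSpace X] [StandardBorelSpace X]
    {E : X → X → Prop} (hE : IsAperiodicCBER E) {U : Set X} (hU : MeasurableSet U) :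
    Negl E {x | {z | z ∈ U ∧ E x z}.Finite ∧ ∃ z ∈ U, E x z} := by
  obtain ⟨g, hg, -, -, hgE⟩ := exists_invol hE.equiv hE.borel hE.countable
  let e : X → ℝ := embeddingReal X
  have he : Measurable e := measurable_embeddingReal X
  have hei : Function.Injective e := (measurableEmbedding_embeddingReal X).injective
  let S : Set X := {x | x ∈ U ∧ ¬ {z | z ∈ U ∧ E x z}.Infinite ∧ ∀ i, g i x ∈ U → e x ≤ e (g i x)}
  have hS : MeasurableSet S := by
    refine hU.inter ((inf_meas hE hU).compl.inter ?_)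
    show MeasurableSet {x | ∀ i, g i x ∈ U → e x ≤ e (g i x)}
    rw [Set.setOf_forall]
    refine MeasurableSet.iInter fun i => ?_
    have : {x | g i x ∈ U → e x ≤ e (g i x)} = (g i ⁻¹' U)ᶜ ∪ {x | e x ≤ e (g i x)} := by
      ext x
      simp [imp_iff_not_or]
    rw [this]
    exact (hg i hU).compl.union (measurableSet_le he (he.comp (hg i)))
  have hle : ∀ x ∈ S, ∀ y ∈ U, E x y → e x ≤ e y := by
    intro x hx y hy hxy
    obtain ⟨i, rfl⟩ := (hgE _ _).1 hxy
    exact hx.2.2 i hy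
  have := negl_of_transversal hE hS fun x hx y hy hxy =>
    hei (le_antisymm (hle x hx y hy.1 hxy) (hle y hy x hx.1 (hE.equiv.symm hxy)))
  convert this using 1
  ext x
  constructor
  · rintro ⟨hfin, z, hz, hxz⟩
    obtain ⟨y, hy, hmin⟩ := Set.exists_min_image _ e hfin ⟨z, hz, hxz⟩
    refine ⟨y, ⟨hy.1, ?_, fun i hi => hmin _ ⟨hi, hE.equiv.trans hy.2 ((hgE _ _).2 ⟨i, rfl⟩)⟩⟩,
      hy.2⟩
    rw [← class_eq hE.equiv U hy.2]
    exact fun h => h hfin
  · rintro ⟨y, hy, hxy⟩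
    refine ⟨?_, y, hy.1, hxy⟩
    rw [class_eq hE.equiv U hxy]
    exact Set.not_infinite.1 hy.2.1

/-- off a negligible set every Borel set has a perfect matching -/
theorem match_off {X : Type} [MeasurableSpace X] [StandardBorelSpace X]
    {E : X → X → Prop} (hE : IsAperiodicCBER E) {U : Set X} (hU : MeasurableSet U) :
    ∃ (ι : X → X) (J : Set X), Measurable ι ∧ Negl E J ∧ (∀ x, E x (ι x)) ∧
      ∀ x ∈ U, x ∉ J → ι x ∈ U ∧ ι (ι x) = x ∧ ι x ≠ x := by
  obtain ⟨ι, hι, hιE, h⟩ := matching_on hE (hU.union (inf_meas hE hU).compl) fun x => by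
    by_cases hx : {z | z ∈ U ∧ E x z}.Infinite
    · exact hx.mono fun z hz => ⟨Or.inl hz.1, hz.2⟩
    · refine (hE.infinite x).mono fun z hz => ⟨Or.inr ?_, hz⟩
      show ¬ {w | w ∈ U ∧ E z w}.Infinite
      rw [← class_eq hE.equiv U hz]
      exact hx
  refine ⟨ι, _, hι, negl_finite hE hU, hιE, fun x hx hxJ => ?_⟩
  obtain ⟨h1, h2⟩ := h x (Or.inl hx)
  refine ⟨h1.resolve_right fun h3 => hxJ ⟨?_, x, hx, hE.equiv.refl x⟩, h2⟩
  rw [class_eq hE.equiv U (hιE x)]
  exact Set.not_infinite.1 h3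

theorem rsStmt : RSStmt := by
  classical
  intro X _ _ E hE T κ hT hκ hi
  obtain ⟨ι0, m0, e0, h0⟩ := matching_on hE hT hi
  choose ι J hι hJ hιE h using fun v : ℕ =>
    match_off hE (hT.inter (hκ (measurableSet_singleton v)))
  have hN := negl_iUnion hE.equiv J hJ
  have key : ∀ x ∈ T, x ∉ ⋃ v, J v → (ι (κ x) x ∈ T ∧ κ (ι (κ x) x) = κ x) ∧
      ι (κ x) (ι (κ x) x) = x ∧ ι (κ x) x ≠ x := fun x hx hxJ =>
    h (κ x) x ⟨hx, rfl⟩ fun h' => hxJ (mem_iUnion.2 ⟨_, h'⟩)
  refine ⟨fun x => if x ∈ ⋃ v, J v then ι0 x else ι (κ x) x, ⋃ v, J v,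
    Measurable.ite hN.1 m0 (meas_index hκ hι), hN, fun x => ?_, fun x hx => ?_,
    fun x hx hxJ => ?_⟩
  · dsimp only
    split_ifs
    · exact e0 x
    · exact hιE _ x
  · dsimp only
    by_cases hxJ : x ∈ ⋃ v, J v
    · rw [if_pos hxJ, if_pos (hN.2.1 _ _ (e0 x) hxJ)]
      exact h0 x hx
    · obtain ⟨⟨k1, k2⟩, k3, k4⟩ := key x hx hxJ
      rw [if_neg hxJ, if_neg fun h' => hxJ (hN.2.1 _ _ (hE.equiv.symm (hιE _ x)) h'), k2]
      exact ⟨k1, k3, k4⟩
  · dsimp only
    rw [if_neg hxJ]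
    exact (key x hx hxJ).1.2

/-- a maximal Borel matching between two disjoint Borel sets -/
theorem greedy {X : Type} [MeasurableSpace X] [StandardBorelSpace X]
    {E : X → X → Prop} (hE : IsAperiodicCBER E) {P Q : Set X} (hP : MeasurableSet P)
    (hQ : MeasurableSet Q) (hPQ : Disjoint P Q) :
    ∃ M : X → X, Measurable M ∧ (∀ x, E x (M x) ∧ M (M x) = x ∧
      (M x ≠ x → x ∈ P ∧ M x ∈ Q ∨ x ∈ Q ∧ M x ∈ P)) ∧
      ∀ x ∈ P, ∀ y ∈ Q, E x y → M x = x → M y ≠ y := by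
  classical
  obtain ⟨g, hg, hgi, -, hgE⟩ := exists_invol hE.equiv hE.borel hE.countable
  let C : X → X → Prop := fun x y => x ∈ P ∧ y ∈ Q ∨ x ∈ Q ∧ y ∈ P
  have hC : ∀ x y, C x y → C y x := fun x y h => h.symm.imp And.symm And.symm
  obtain ⟨m, hm0, hms⟩ : ∃ m : ℕ → X → X, m 0 = id ∧ ∀ (k : ℕ) (x : X),
      m (k + 1) x = if m k x = x ∧ m k (g k x) = g k x ∧ C x (g k x) then g k x else m k x :=
    ⟨fun k => Nat.rec (motive := fun _ => X → X) id
      (fun k mk x => if mk x = x ∧ mk (g k x) = g k x ∧ C x (g k x) then g k x else mk x) k, rfl,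
      fun k x => rfl⟩
  have hm : ∀ k, Measurable (m k) ∧ ∀ x, m k (m k x) = x ∧ E x (m k x) ∧
      (m k x ≠ x → C x (m k x)) := by
    intro k
    induction k with
    | zero => rw [hm0]; exact ⟨measurable_id, fun x => ⟨rfl, hE.equiv.refl x, fun h => (h rfl).elim⟩⟩
    | succ k ih =>
      refine ⟨?_, fun x => ?_⟩
      · rw [funext (hms k)]
        exact Measurable.ite ((measurableSet_eq_fun ih.1 measurable_id).inter
          ((measurableSet_eq_fun (ih.1.comp (hg k)) (hg k)).inter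
            ((hP.inter (hg k hQ)).union (hQ.inter (hg k hP))))) (hg k) ih.1
      by_cases h : m k x = x ∧ m k (g k x) = g k x ∧ C x (g k x)
      · rw [hms k x, if_pos h, hms,
          if_pos ⟨h.2.1, by rw [hgi]; exact h.1, by rw [hgi]; exact hC _ _ h.2.2⟩]
        exact ⟨hgi k x, (hgE _ _).2 ⟨k, rfl⟩, fun _ => h.2.2⟩
      · rw [hms k x, if_neg h]
        refine ⟨?_, (ih.2 x).2⟩
        rw [hms, if_neg, (ih.2 x).1]
        rintro ⟨h1, h2⟩
        rw [(ih.2 x).1] at h1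
        rw [← h1] at h2
        exact h ⟨h1.symm, h2⟩
  have hst : ∀ k x, m k x ≠ x → ∀ l, k ≤ l → m l x = m k x := by
    intro k x hx l hl
    induction l, hl using Nat.le_induction with
    | base => rfl
    | succ l _ ih => rw [hms, if_neg (fun h => hx (ih ▸ h.1)), ih]
  obtain ⟨c, hc, hcm⟩ := meas_least (fun k x => m k x ≠ x)
    fun k => (measurableSet_eq_fun (hm k).1 measurable_id).compl
  let M : X → X := fun x => m (c x) x
  have hM : Measurable M := meas_index hc fun k => (hm k).1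
  have hMk : ∀ k x, m k x ≠ x → M x = m k x := by
    intro k x hx
    have h1 := hcm x ⟨k, hx⟩
    rcases le_total k (c x) with h | h
    · exact hst k x hx _ h
    · exact (hst _ x h1 k h).symm
  have hfix : ∀ x, M x = x → ∀ k, m k x = x := by
    intro x hx k
    by_contra h
    exact h ((hMk k x h).symm.trans hx)
  refine ⟨M, hM, fun x => ⟨((hm _).2 x).2.1, ?_, ((hm _).2 x).2.2⟩, fun x hx y hy hxy h1 h2 => ?_⟩
  · by_cases h : M x = x
    · rw [h, h]
    · have h1 : m (c x) (M x) = x := ((hm _).2 x).1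
      rw [hMk (c x) (M x) (by rw [h1]; exact fun e => h e.symm), h1]
  · obtain ⟨k, rfl⟩ := (hgE _ _).1 hxy
    have := hms k x
    rw [if_pos ⟨hfix x h1 k, hfix _ h2 k, Or.inl ⟨hx, hy⟩⟩, hfix x h1] at this
    rw [← this] at hy
    exact Set.disjoint_left.1 hPQ hx hy

theorem msStmt : MSStmt := by
  classical
  intro X _ _ E hE T P Q hT hP hQ hi hPT hQT hPQ
  obtain ⟨ι0, m0, e0, h0⟩ := matching_on hE hT hi
  obtain ⟨M, hM, hME, hMm⟩ := greedy hE hP hQ hPQ
  have hS : MeasurableSet {x | M x = x} := measurableSet_eq_fun hM measurable_id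
  obtain ⟨ι, J, hι, hJ, hιE, h⟩ := match_off hE (hT.inter hS)
  let f : X → X := fun x => if x ∈ J then ι0 x else if M x = x then ι x else M x
  have f1 : ∀ x ∈ J, f x = ι0 x := fun x hx => if_pos hx
  have f2 : ∀ x, x ∉ J → M x = x → f x = ι x := fun x hx h => (if_neg hx).trans (if_pos h)
  have f3 : ∀ x, x ∉ J → M x ≠ x → f x = M x := fun x hx h => (if_neg hx).trans (if_neg h)
  have hJ' : ∀ x y, E x y → x ∉ J → y ∉ J := fun x y hxy hx hy =>
    hx (hJ.2.1 _ _ (hE.equiv.symm hxy) hy)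
  refine ⟨f, J, Measurable.ite hJ.1 m0 (Measurable.ite hS hι hM), hJ, fun x => ?_,
    fun x hx => ?_, fun x hx => ?_⟩
  · simp only [f]
    split_ifs
    · exact e0 x
    · exact hιE x
    · exact (hME x).1
  · by_cases hxJ : x ∈ J
    · rw [f1 x hxJ, f1 _ (hJ.2.1 _ _ (e0 x) hxJ)]
      exact h0 x hx
    · by_cases hxM : M x = x
      · obtain ⟨⟨k1, k2⟩, k3, k4⟩ := h x ⟨hx, hxM⟩ hxJ
        rw [f2 x hxJ hxM, f2 _ (hJ' _ _ (hιE x) hxJ) k2]
        exact ⟨k1, k3, k4⟩
      · obtain ⟨k1, k2, k3⟩ := hME x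
        rw [f3 x hxJ hxM, f3 _ (hJ' _ _ k1 hxJ) (by rw [k2]; exact fun e => hxM e.symm)]
        refine ⟨?_, k2, hxM⟩
        rcases k3 hxM with k | k
        · exact hQT k.2
        · exact hPT k.2
  · by_cases hc : ∃ y ∈ P, E x y ∧ M y = y
    · obtain ⟨y, hy, hxy, hyM⟩ := hc
      refine Or.inr fun z hz hxz => ?_
      have hzM := hMm y hy z hz (hE.equiv.trans (hE.equiv.symm hxy) hxz) hyM
      rw [f3 z (hJ' _ _ hxz hx) hzM]
      rcases (hME z).2.2 hzM with k | k
      · exact absurd hz (Set.disjoint_left.1 hPQ k.1)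
      · exact k.2
    · refine Or.inl fun z hz hxz => ?_
      have hzM : M z ≠ z := fun e => hc ⟨z, hz, hxz, e⟩
      rw [f3 z (hJ' _ _ hxz hx) hzM]
      rcases (hME z).2.2 hzM with k | k
      · exact k.2
      · exact absurd k.1 (Set.disjoint_left.1 hPQ hz)

end Pool.Agent.H211Z.CA
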